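import Pool.Agent.Helper92.PR.PrepA
import Pool.Agent.Helper92.PR.CoreB
import Pool.Agent.Helper92.PR.Ctm

/-!
# The strong polarized relation at the successor of a cardinal that is not weakly compact

We prove the negated form of Q1: if there is a supercompact cardinal, then there is a countable
transitive model of ZFC with an uncountable regular cardinal `κ` which is not weakly compact and
for which the strong polarized relation `(κ⁺, κ) → (κ⁺, κ)^{1,1}_2` holds.

The proof has three parts. (A) An iteration of length `κ` with Easton supports (in the style of
Laver, but without a Laver function) makes the supercompact cardinal `κ` behave like an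
indestructible measurable cardinal: it carries a uniform `κ`-complete ultrafilter after every
further covering directed closed forcing. (B) An iteration of forcings of Mathias type which adds
homogeneous rectangles for all colourings, while a `κ`-Suslin tree survives; the ultrafilters which
guide it live in the extension by the tree. (C) The forcing extension of a countable transitive
model.
-/

namespace Pool.Agent.Results.MP_c625b5_lc.Supercompact

open Cardinal Pool.Agent.Helper96.Fc Pool.Agent.Helper3.SP

/-- **Main theorem.** If there is a supercompact cardinal then there is a countable transitive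
model `N` of `ZFC` with an uncountable regular cardinal `K` of `N` that is not weakly compact in
`N`, whose successor in `N` is `M`, such that the strong polarized relation
`(M, K) → (M, K)^{1,1}_2` holds in `N`. -/
theorem result (h : ∃ κ : Cardinal.{0}, Pool.Agent.Helper92.PR.Supercompact κ) :
    ∃ (N : Set ZFSet.{0}) (K M : ZFSet.{0}), N.Countable ∧ IsZFC N ∧ RegIn N K ∧
      Ordinal.toZFSet Ordinal.omega0 ∈ K ∧ NextCard N K M ∧ ¬ WeaklyCompactIn N K ∧
      StrongPol N K M := by
  obtain ⟨κ, hκ⟩ := h
  obtain ⟨B, _, b₀, hb₀, hB⟩ := Pool.Agent.Helper92.PR.exists_prep hκ
  obtain ⟨P, _, ⟨t, ht⟩, hP⟩ := Pool.Agent.Helper92.PR.core_of_prep hB b₀ hb₀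
  obtain ⟨N, K, M, h1, h2, h3, -, h5, h6, h7, h8⟩ :=
    Pool.Agent.Helper92.PR.ctm_of_core' t ht hP
  exact ⟨N, K, M, h1, h2, h3, h5, h6, h7, h8⟩

end Pool.Agent.Results.MP_c625b5_lc.Supercompact
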